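import Pool.Agent.Y288.VG.Ann

/-! ES-LAUR: the principal part of a function holomorphic in a punctured disc. -/

set_option autoImplicit false

open Complex Set Metric Filter Topology
open scoped Real

namespace Pool.Agent.Y849.ES

open Pool.Agent.Y288.VG

theorem laur0 (c : ℂ) (ρ : ℝ) (X : ℂ → ℂ) (hρ : 0 < ρ)
    (hX : DifferentiableOn ℂ X (ball c ρ \ {c})) :
    ∃ (F : ℂ → ℂ) (B : ℝ), Differentiable ℂ F ∧
      ∀ ζ : ℂ, 2 / ρ ≤ ‖ζ‖ → ‖X (c + 1 / ζ) - F ζ‖ ≤ B := by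
  obtain ⟨R, hR1, hR2⟩ : ∃ R : ℝ, ρ / 2 < R ∧ R < ρ := exists_between (by linarith)
  have hR : 0 < R := by linarith
  -- the radii
  set r : ℕ → ℝ := fun n => R / (n + 2) with hr
  have hrpos : ∀ n, 0 < r n := fun n => by positivity
  have hrR : ∀ n, r n < R := fun n => by
    show R / (n + 2) < R
    rw [div_lt_iff₀ (by positivity)]
    have : (0 : ℝ) ≤ n := n.cast_nonneg
    nlinarith
  have hranti : ∀ n m, n ≤ m → r m ≤ r n := fun n m h => by
    show R / (m + 2) ≤ R / (n + 2)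
    apply div_le_div_of_nonneg_left hR.le (by positivity)
    have : (n : ℝ) ≤ m := by exact_mod_cast h
    linarith
  have hrinv : ∀ n, (r n)⁻¹ = (n + 2) / R := fun n => by
    show (R / (n + 2))⁻¹ = _
    rw [inv_div]
  -- the function on the annuli
  set f : ℂ → ℂ := fun z => X (c + z) with hf
  have hfd : ∀ z : ℂ, z ≠ 0 → ‖z‖ < ρ → DifferentiableAt ℂ f z := by
    intro z hz0 hz
    have hopen : IsOpen (ball c ρ \ {c}) := isOpen_ball.sdiff isClosed_singleton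
    have hmem : c + z ∈ ball c ρ \ {c} := by
      refine ⟨?_, ?_⟩
      · rw [mem_ball_iff_norm]
        simpa using hz
      · intro h
        apply hz0
        have h' : c + z = c := h
        simpa using h'
    have h1 : DifferentiableAt ℂ X (c + z) := (hX _ hmem).differentiableAt (hopen.mem_nhds hmem)
    exact h1.comp z (by fun_prop)
  have hsplit : ∀ n : ℕ, ∃ v u : ℂ → ℂ, ContinuousOn v (closedBall 0 R) ∧
      DifferentiableOn ℂ v (ball 0 R) ∧ ContinuousOn u (closedBall 0 (r n)⁻¹) ∧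
      DifferentiableOn ℂ u (ball 0 (r n)⁻¹) ∧ u 0 = 0 ∧
      ∀ z ∈ closedBall 0 R \ ball 0 (r n), f z = v z + u z⁻¹ := by
    intro n
    have hmem : ∀ z ∈ closedBall (0 : ℂ) R \ ball 0 (r n), DifferentiableAt ℂ f z := by
      rintro z ⟨h1, h2⟩
      rw [mem_closedBall_zero_iff] at h1
      rw [mem_ball_zero_iff, not_lt] at h2
      refine hfd z ?_ (by linarith)
      rintro rfl
      rw [norm_zero] at h2
      exact absurd h2 (not_le.2 (hrpos n))
    refine ann_split (hrpos n) (hrR n)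
      (fun z hz => (hmem z hz).continuousAt.continuousWithinAt) (fun z hz => ?_)
    refine (hmem z ⟨ball_subset_closedBall hz.1, fun h => hz.2 (ball_subset_closedBall h)⟩
      ).differentiableWithinAt
  choose v u hvc hvd huc hud hu0 hvu using hsplit
  -- uniqueness
  have huniq : ∀ n m, n ≤ m → (∀ z ∈ closedBall (0 : ℂ) R, v n z = v m z) ∧
      ∀ z ∈ closedBall (0 : ℂ) (r n)⁻¹, u n z = u m z := by
    intro n m hnm
    have hle : (r n)⁻¹ ≤ (r m)⁻¹ := inv_anti₀ (hrpos m) (hranti n m hnm)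
    have h := ann_split_unique (v := fun z => v n z - v m z) (u := fun z => u n z - u m z)
      (hrpos n) (hrR n) ((hvc n).sub (hvc m)) ((hvd n).sub (hvd m))
      ((huc n).sub ((huc m).mono (closedBall_subset_closedBall hle)))
      ((hud n).sub ((hud m).mono (ball_subset_ball hle)))
      (by rw [hu0, hu0, sub_zero]) (fun z hz => by
        have h1 := hvu n z hz
        have h2 := hvu m z ⟨hz.1, fun h => hz.2 (ball_subset_ball (hranti n m hnm) h)⟩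
        have h3 : v n z + u n z⁻¹ = v m z + u m z⁻¹ := h1.symm.trans h2
        linear_combination h3)
    exact ⟨fun z hz => sub_eq_zero.1 (h.1 z hz), fun z hz => sub_eq_zero.1 (h.2 z hz)⟩
  have hv0 : ∀ n, ∀ z ∈ closedBall (0 : ℂ) R, v n z = v 0 z := fun n z hz =>
    ((huniq 0 n (Nat.zero_le n)).1 z hz).symm
  have huu : ∀ n m (z : ℂ), ‖z‖ ≤ (r n)⁻¹ → ‖z‖ ≤ (r m)⁻¹ → u n z = u m z := by
    intro n m z hn hm
    rcases le_total n m with h | h
    · exact (huniq n m h).2 z (mem_closedBall_zero_iff.2 hn)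
    · exact ((huniq m n h).2 z (mem_closedBall_zero_iff.2 hm)).symm
  -- the index
  set N : ℂ → ℕ := fun ζ => ⌈‖ζ‖ * R⌉₊ with hN
  have hNle : ∀ ζ, ‖ζ‖ ≤ (r (N ζ))⁻¹ := by
    intro ζ
    rw [hrinv, le_div_iff₀ hR]
    have := Nat.le_ceil (‖ζ‖ * R)
    show ‖ζ‖ * R ≤ (⌈‖ζ‖ * R⌉₊ : ℝ) + 2
    linarith
  obtain ⟨B, hB⟩ : ∃ B, ∀ z ∈ closedBall (0 : ℂ) R, ‖v 0 z‖ ≤ B := by
    obtain ⟨B, hB⟩ := (isCompact_closedBall (0 : ℂ) R).exists_bound_of_continuousOn (hvc 0)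
    exact ⟨B, hB⟩
  refine ⟨fun ζ => u (N ζ) ζ, B, fun ζ0 => ?_, fun ζ hζ => ?_⟩
  · -- differentiability
    obtain ⟨n, hn⟩ : ∃ n : ℕ, ‖ζ0‖ < (r n)⁻¹ := by
      refine ⟨N ζ0, ?_⟩
      rw [hrinv, lt_div_iff₀ hR]
      have := Nat.le_ceil (‖ζ0‖ * R)
      show ‖ζ0‖ * R < (⌈‖ζ0‖ * R⌉₊ : ℝ) + 2
      linarith
    have hmem : ball (0 : ℂ) (r n)⁻¹ ∈ 𝓝 ζ0 := isOpen_ball.mem_nhds (mem_ball_zero_iff.2 hn)
    have h1 : DifferentiableAt ℂ (u n) ζ0 := (hud n).differentiableAt hmem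
    refine h1.congr_of_eventuallyEq ?_
    filter_upwards [hmem] with ζ hζ
    exact huu _ _ ζ (hNle ζ) (mem_ball_zero_iff.1 hζ).le
  · have hζ0 : 0 < ‖ζ‖ := lt_of_lt_of_le (by positivity) hζ
    have hζne : ζ ≠ 0 := norm_pos_iff.1 hζ0
    have hz1 : ‖(1 / ζ : ℂ)‖ ≤ R := by
      rw [norm_div, norm_one, div_le_iff₀ hζ0]
      rw [div_le_iff₀ hρ] at hζ
      nlinarith
    have hz2 : r (N ζ) ≤ ‖(1 / ζ : ℂ)‖ := by
      rw [norm_div, norm_one, le_div_iff₀ hζ0]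
      have h1 := hNle ζ
      calc r (N ζ) * ‖ζ‖ ≤ r (N ζ) * (r (N ζ))⁻¹ := by
            exact mul_le_mul_of_nonneg_left h1 (hrpos _).le
        _ = 1 := mul_inv_cancel₀ (hrpos _).ne'
    have hzR : (1 / ζ : ℂ) ∈ closedBall (0 : ℂ) R := mem_closedBall_zero_iff.2 hz1
    have h1 := hvu (N ζ) (1 / ζ) ⟨hzR, fun h => absurd (mem_ball_zero_iff.1 h) (not_lt.2 hz2)⟩
    have h2 : (1 / ζ : ℂ)⁻¹ = ζ := by rw [one_div, inv_inv]
    have h3 : X (c + 1 / ζ) = v 0 (1 / ζ) + u (N ζ) ζ := by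
      have : X (c + 1 / ζ) = v (N ζ) (1 / ζ) + u (N ζ) ((1 / ζ : ℂ)⁻¹) := h1
      rw [this, h2, hv0 (N ζ) _ hzR]
    show ‖X (c + 1 / ζ) - u (N ζ) ζ‖ ≤ B
    rw [h3, add_sub_cancel_right]
    exact hB _ hzR

end Pool.Agent.Y849.ES
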