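import Pool.Agent.Y245.SC.Stm4
import Pool.Agent.Y849.ES.Laur0

/-! ES-LAUR -/

set_option autoImplicit false

namespace Pool.Agent.Y849.ES

theorem laur : Pool.Agent.Y245.SC.S_LAUR := fun c ρ X hρ hX => laur0 c ρ X hρ hX

end Pool.Agent.Y849.ES
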